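import Pool.Agent.W712.WR.Stm

/-!
Project WR (helper712), part S38 (helper405): the two frozen persistence statements from
`FieldStm` and `NoExitStm`.
-/

set_option autoImplicit false

namespace W405.WR

open W712.WR Finset

theorem core (hF : FieldStm) (hN : NoExitStm) (n : ℕ) (E : Finset ((Fin n → ℝ) × (Fin n → ℝ)))
    (hE : ∀ e ∈ E, Relation.ReflTransGen (fun u v => (u, v) ∈ E) e.2 e.1)
    (ε : ℝ) (hε : 0 < ε) (x0 : Fin n → ℝ) (hx0 : ∀ j, 0 < x0 j) :
    ∃ ε₀ : ℝ, 0 < ε₀ ∧ ∀ (k : (Fin n → ℝ) × (Fin n → ℝ) → ℝ → ℝ) (x : ℝ → Fin n → ℝ) (b : ℝ),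
      0 ≤ b → x 0 = x0 → (∀ e ∈ E, ∀ t, ε ≤ k e t ∧ k e t ≤ 1 / ε) →
      ContinuousOn x (Set.Icc 0 b) →
      (∀ t ∈ Set.Ico 0 b, HasDerivWithinAt x (fld E (fun e => k e t) (x t)) (Set.Ici t) t) →
      ∀ t ∈ Set.Icc 0 b, ∀ i, ε₀ < x t i := by
  obtain ⟨T, c, M, R0, -, -, hc, -, hexh, hbd, hfld, -⟩ := hF n E hE ε hε
  obtain ⟨R1, hR1⟩ := hexh x0 hx0
  set R := max R0 R1 with hR
  have hR0R : R0 ≤ R := le_max_left _ _
  have hR1R : R1 ≤ R := le_max_right _ _
  refine ⟨c R / 2, half_pos (hc R), ?_⟩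
  intro k x b hb hx hk hcont hder t ht i
  have key := hN {p // p ∈ T} (fun p t => ∑ j, p.1.1 j * x t j - p.1.2 R)
    (fun p t => ∑ j, p.1.1 j * fld E (fun e => k e t) (x t) j) 0 b (c R) hb (hc R)
    (by
      intro p
      apply ContinuousOn.sub _ continuousOn_const
      apply continuousOn_finsetSum
      intro j _
      exact continuousOn_const.mul ((continuous_apply j).comp_continuousOn hcont))
    (by
      intro p s hs
      have h1 := hder s hs
      have h2 : ∀ j, HasDerivWithinAt (fun t => x t j)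
          (fld E (fun e => k e s) (x s) j) (Set.Ici s) s := hasDerivWithinAt_pi.1 h1
      have h3 : HasDerivWithinAt (fun t => ∑ j, p.1.1 j * x t j)
          (∑ j, p.1.1 j * fld E (fun e => k e s) (x s) j) (Set.Ici s) s := by
        apply HasDerivWithinAt.fun_sum
        intro j _
        exact (h2 j).const_mul _
      exact h3.sub_const _)
    (by
      intro p
      have := hR1 R hR1R p.1 p.2
      simp only [hx]
      linarith)
    (by
      intro s hs p hp h0 hcR
      apply hfld R hR0R (x s) (fun e => k e s) (fun e he => hk e he s) p.1 p.2 _ h0 hcR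
      intro q hq
      exact hp ⟨q, hq⟩)
    t ht
  have := (hbd R hR0R (x t) (fun p hp => (key ⟨p, hp⟩).trans (hc R).le) i).1
  have := hc R
  linarith

theorem s03983 (hF : FieldStm) (hN : NoExitStm) : S03983Stm := by
  intro n E _ hE ε hε k hk I hI h0 x hpos hder
  obtain ⟨ε₀, hε₀, h⟩ := core hF hN n E hE ε hε (x 0) (hpos 0 h0)
  refine ⟨ε₀, hε₀, ?_⟩
  intro t ht ht0 i
  have hsub : Set.Icc 0 t ⊆ I := hI.out h0 ht
  refine h k x t ht0 rfl hk ?_ ?_ t ⟨ht0, le_rfl⟩ i
  · intro s hs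
    exact ((hder s (hsub hs)).continuousWithinAt).mono hsub
  · intro s hs
    have h1 := hder s (hsub ⟨hs.1, hs.2.le⟩)
    have h2 : I ∈ nhdsWithin s (Set.Ici s) := by
      apply Filter.mem_of_superset (Icc_mem_nhdsGE hs.2)
      exact (Set.Icc_subset_Icc_left hs.1).trans hsub
    exact h1.mono_of_mem_nhdsWithin h2

theorem s03833 (hF : FieldStm) (hN : NoExitStm) : S03833Stm := by
  intro n E k hE hk T x hT hpos hder
  have hE' : ∀ e ∈ E, Relation.ReflTransGen (fun u v => (u, v) ∈ E) e.2 e.1 :=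
    fun e he => (hE e he).to_reflTransGen
  obtain ⟨ε, hε, hε'⟩ : ∃ ε : ℝ, 0 < ε ∧ ∀ e ∈ E, ε ≤ k e ∧ k e ≤ 1 / ε := by
    classical
    have : ∀ s : Finset ((Fin n → ℝ) × (Fin n → ℝ)), (∀ e ∈ s, 0 < k e) →
        ∃ ε : ℝ, 0 < ε ∧ ∀ e ∈ s, ε ≤ k e ∧ k e ≤ 1 / ε := by
      intro s
      induction s using Finset.induction_on with
      | empty => intro _; exact ⟨1, one_pos, by simp⟩
      | insert a s _ ih =>
        intro hs
        obtain ⟨ε, hε, h⟩ := ih (fun e he => hs e (mem_insert_of_mem he))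
        have ha := hs a (mem_insert_self _ _)
        refine ⟨min ε (min (k a) (1 / k a)), by positivity, ?_⟩
        have h1 : min ε (min (k a) (1 / k a)) ≤ ε := min_le_left _ _
        have h2 : min ε (min (k a) (1 / k a)) ≤ k a := (min_le_right _ _).trans (min_le_left _ _)
        have h3 : min ε (min (k a) (1 / k a)) ≤ 1 / k a :=
          (min_le_right _ _).trans (min_le_right _ _)
        have h0 : 0 < min ε (min (k a) (1 / k a)) := by positivity
        intro e he
        rcases mem_insert.1 he with rfl | he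
        · refine ⟨h2, ?_⟩
          rw [le_div_iff₀ h0]
          rw [le_div_iff₀ ha] at h3
          linarith
        · refine ⟨h1.trans (h e he).1, (h e he).2.trans ?_⟩
          exact one_div_le_one_div_of_le h0 h1
    exact this E hk
  have h00 : ((0 : ℝ) : EReal) < T := by simpa using hT
  obtain ⟨ε₀, hε₀, h⟩ := core hF hN n E hE' ε hε (x 0) (hpos 0 le_rfl h00)
  intro i
  refine ⟨ε₀, hε₀, -1, lt_trans (by exact_mod_cast (by norm_num : (-1 : ℝ) < 0)) h00, ?_⟩
  intro t ht0 _ htT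
  have hlt : ∀ s ∈ Set.Icc 0 t, (s : EReal) < T := fun s hs =>
    lt_of_le_of_lt (by exact_mod_cast hs.2) htT
  refine (h (fun e _ => k e) x t ht0 rfl (fun e he _ => hε' e he) ?_ ?_ t ⟨ht0, le_rfl⟩ i).le
  · intro s hs
    exact ((hder s hs.1 (hlt s hs)).continuousWithinAt).mono Set.Icc_subset_Ici_self
  · intro s hs
    have h1 := hder s hs.1 (hlt s ⟨hs.1, hs.2.le⟩)
    exact h1.mono (Set.Ici_subset_Ici.2 hs.1)

end W405.WR
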