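import Mathlib
import Pool.Agent.W559.Wr.Stm

/-! WR-PROD: products of smooth projective varieties. -/

set_option autoImplicit false

open TensorProduct

universe u

namespace Pool.Agent.W405.WR

open Pool.Agent.W559.Wr

theorem smooth_sup {k M : Type u} [Field k] [Field M] [Algebra k M] (A B : Subalgebra k M)
    (h : A.LinearDisjoint B) (hA : Algebra.Smooth k A) (hB : Algebra.Smooth k B) :
    Algebra.Smooth k (A ⊔ B : Subalgebra k M) := by
  have h1 : Algebra.Smooth A (A ⊗[k] B) := inferInstance
  have h2 : Algebra.Smooth k (A ⊗[k] B) := Algebra.Smooth.comp k A (A ⊗[k] B)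
  exact Algebra.Smooth.of_equiv h.mulMap

theorem smooth_map {k K M : Type u} [Field k] [Field K] [Algebra k K] [Field M] [Algebra k M]
    (f : K →ₐ[k] M) (A : Subalgebra k K) (hA : Algebra.Smooth k A) :
    Algebra.Smooth k (A.map f) :=
  Algebra.Smooth.of_equiv (A.equivMapOfInjective f f.toRingHom.injective)

theorem prod : ProdStm.{u} := by
  intro k M _ _ _ F F' htop hdis ⟨l, z, hz, hsm, hgen⟩ ⟨l', z', hz', hsm', hgen'⟩
  have hN : (l + 1) * (l' + 1) = (l * l' + l + l') + 1 := by ring
  let e : Fin (l + 1) × Fin (l' + 1) ≃ Fin ((l * l' + l + l') + 1) :=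
    finProdFinEquiv.trans (finCongr hN)
  have he0 : e (0, 0) = 0 := by
    apply Fin.ext
    simp [e, finProdFinEquiv]
  let w : Fin ((l * l' + l + l') + 1) → M := fun n => (z (e.symm n).1 : M) * (z' (e.symm n).2 : M)
  have hw : ∀ i j, w (e (i, j)) = (z i : M) * (z' j : M) := fun i j => by
    simp only [w, Equiv.symm_apply_apply]
  have hzM : ∀ i, (z i : M) ≠ 0 := fun i h => hz i (Subtype.ext h)
  have hzM' : ∀ i, (z' i : M) ≠ 0 := fun i h => hz' i (Subtype.ext h)
  refine ⟨l * l' + l + l', w, fun n => mul_ne_zero (hzM _) (hzM' _), fun n => ?_, ?_⟩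
  · obtain ⟨⟨i, j⟩, rfl⟩ := e.surjective n
    set A : Subalgebra k M := (Algebra.adjoin k (Set.range fun a => z a / z i)).map F.val with hA
    set A' : Subalgebra k M :=
      (Algebra.adjoin k (Set.range fun a => z' a / z' j)).map F'.val with hA'
    have hgA : ∀ a, (z a : M) / (z i : M) ∈ A := fun a =>
      ⟨z a / z i, Algebra.subset_adjoin ⟨a, rfl⟩, rfl⟩
    have hgA' : ∀ a, (z' a : M) / (z' j : M) ∈ A' := fun a =>
      ⟨z' a / z' j, Algebra.subset_adjoin ⟨a, rfl⟩, rfl⟩
    have hAF : A ≤ F.toSubalgebra := by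
      rintro _ ⟨x, -, rfl⟩
      exact x.2
    have hAF' : A' ≤ F'.toSubalgebra := by
      rintro _ ⟨x, -, rfl⟩
      exact x.2
    have heq : Algebra.adjoin k (Set.range fun m => w m / w (e (i, j))) = A ⊔ A' := by
      refine le_antisymm (Algebra.adjoin_le ?_) (sup_le ?_ ?_)
      · rintro _ ⟨m, rfl⟩
        obtain ⟨⟨a, b⟩, rfl⟩ := e.surjective m
        have h1 : w (e (a, b)) / w (e (i, j)) =
            ((z a : M) / (z i : M)) * ((z' b : M) / (z' j : M)) := by
          rw [hw, hw, div_mul_div_comm]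
        change w (e (a, b)) / w (e (i, j)) ∈ A ⊔ A'
        rw [h1]
        exact mul_mem ((le_sup_left : A ≤ A ⊔ A') (hgA a)) ((le_sup_right : A' ≤ A ⊔ A') (hgA' b))
      · rw [hA, Subalgebra.map_le]
        refine Algebra.adjoin_le ?_
        rintro _ ⟨a, rfl⟩
        change F.val (z a / z i) ∈ Algebra.adjoin k (Set.range fun m => w m / w (e (i, j)))
        refine Algebra.subset_adjoin ⟨e (a, j), ?_⟩
        change w (e (a, j)) / w (e (i, j)) = (z a : M) / (z i : M)
        rw [hw, hw, mul_div_mul_right _ _ (hzM' j)]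
      · rw [hA', Subalgebra.map_le]
        refine Algebra.adjoin_le ?_
        rintro _ ⟨a, rfl⟩
        change F'.val (z' a / z' j) ∈ Algebra.adjoin k (Set.range fun m => w m / w (e (i, j)))
        refine Algebra.subset_adjoin ⟨e (i, a), ?_⟩
        change w (e (i, a)) / w (e (i, j)) = (z' a : M) / (z' j : M)
        rw [hw, hw, mul_div_mul_left _ _ (hzM i)]
    rw [heq]
    have hd : A.LinearDisjoint A' := by
      have h1 := (IntermediateField.linearDisjoint_iff' (A := F) (B := F')).mp hdis
      exact h1.of_le_of_flat_right hAF hAF'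
    exact smooth_sup A A' hd (smooth_map _ _ (hsm i)) (smooth_map _ _ (hsm' j))
  · set K0 := IntermediateField.adjoin k (Set.range fun m => w m / w 0) with hK0
    rw [eq_top_iff, ← htop]
    refine sup_le ?_ ?_
    · have h1 : F = (⊤ : IntermediateField k F).map F.val := by
        rw [← AlgHom.fieldRange_eq_map, IntermediateField.fieldRange_val]
      rw [h1, ← hgen, IntermediateField.adjoin_map, IntermediateField.adjoin_le_iff]
      rintro _ ⟨_, ⟨a, rfl⟩, rfl⟩
      refine IntermediateField.subset_adjoin k _ ⟨e (a, 0), ?_⟩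
      change w (e (a, 0)) / w 0 = (z a : M) / (z 0 : M)
      rw [← he0, hw, hw, mul_div_mul_right _ _ (hzM' 0)]
    · have h1 : F' = (⊤ : IntermediateField k F').map F'.val := by
        rw [← AlgHom.fieldRange_eq_map, IntermediateField.fieldRange_val]
      rw [h1, ← hgen', IntermediateField.adjoin_map, IntermediateField.adjoin_le_iff]
      rintro _ ⟨_, ⟨a, rfl⟩, rfl⟩
      refine IntermediateField.subset_adjoin k _ ⟨e (0, a), ?_⟩
      change w (e (0, a)) / w 0 = (z' a : M) / (z' 0 : M)
      rw [← he0, hw, hw, mul_div_mul_left _ _ (hzM 0)]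

end Pool.Agent.W405.WR
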